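import Mathlib

namespace Pool.Agent.H.MP_50e481_nt.A

open Polynomial

theorem root (K : Type) [Field K] [Finite K] (f : K[X]) (hf : f.degree ≠ 0)
    (h : ∀ x : AlgebraicClosure K, aeval x f = 0 → x ^ Nat.card K = x) :
    ∃ x : K, aeval x f = 0 := by
  obtain ⟨x, hx⟩ := IsAlgClosed.exists_aeval_eq_zero (AlgebraicClosure K) f hf
  have h1 : (X ^ Nat.card K - X : K[X]) ≠ 0 :=
    FiniteField.X_pow_card_sub_X_ne_zero K Finite.one_lt_card
  obtain ⟨y, rfl⟩ := (splits_X_pow_nat_card_sub_X (K := K)).mem_range_of_isRoot h1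
    (i := algebraMap K (AlgebraicClosure K)) (x := x) (by simp [h x hx])
  exact ⟨y, (algebraMap K (AlgebraicClosure K)).injective (by rwa [← aeval_algebraMap_apply, map_zero])⟩

theorem pw {K : Type} [Field K] {θ : K} {M : ℕ} (hθ : orderOf θ = M) (hM : 0 < M) (a b : ℕ) :
    θ ^ a = θ ^ b ↔ a ≡ b [MOD M] := by
  have h0 : θ ≠ 0 := by
    rintro rfl
    have := pow_orderOf_eq_one (0 : K)
    simp [hθ, hM.ne'] at this
  lift θ to Kˣ using h0.isUnit
  rw [orderOf_units] at hθ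
  rw [← hθ, ← pow_eq_pow_iff_modEq]
  norm_cast

theorem pv {K : Type} [Field K] {θ : K} {M : ℕ} [NeZero M] (hθ : orderOf θ = M) (a : ZMod M)
    (b : ℕ) : θ ^ a.val = θ ^ b ↔ a = b := by
  rw [pw hθ (NeZero.pos M), ← ZMod.natCast_eq_natCast_iff, ZMod.natCast_zmod_val]

theorem deg (p n : ℕ) [Fact p.Prime] (hn : n ≠ 0) (θ : GaloisField p n) (M b : ℕ)
    (hθ : orderOf θ = M) (hM : 0 < M) (h : ∀ d < n, 0 < d → ¬ b * p ^ d ≡ b [MOD M]) :
    (minpoly (ZMod p) (θ ^ b)).natDegree = n := by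
  have i : IsIntegral (ZMod p) (θ ^ b) := .of_finite _ _
  have h1 := minpoly.natDegree_le (A := ZMod p) (θ ^ b)
  rw [GaloisField.finrank p hn] at h1
  refine h1.eq_or_lt.resolve_right fun l => h _ l (minpoly.natDegree_pos i) ?_
  rw [← pw hθ hM, pow_mul, ← IntermediateField.adjoin.finrank i]
  cases nonempty_fintype (IntermediateField.adjoin (ZMod p) {θ ^ b})
  have := FiniteField.pow_card (IntermediateField.AdjoinSimple.gen (ZMod p) (θ ^ b))
  rw [Module.card_eq_pow_finrank (K := ZMod p), ZMod.card] at this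
  exact congrArg Subtype.val this

theorem gen3 : ∃ θ : GaloisField 3 6, θ ^ 6 = θ + 1 := by
  obtain ⟨x, hx⟩ := root (GaloisField 3 6) (X ^ 6 - X - 1)
    (ne_of_eq_of_ne (b := 6) (by compute_degree!) (by decide)) fun x hx => by
      rw [GaloisField.card 3 6 (by norm_num)]
      simp only [map_sub, map_pow, aeval_X, map_one] at hx
      grind
  simp only [map_sub, map_pow, aeval_X, map_one] at hx
  exact ⟨x, by grind⟩

theorem gen2 : ∃ θ : GaloisField 2 10, θ ^ 10 = θ ^ 3 + 1 := by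
  obtain ⟨x, hx⟩ := root (GaloisField 2 10) (X ^ 10 - X ^ 3 - 1)
    (ne_of_eq_of_ne (b := 10) (by compute_degree!) (by decide)) fun x hx => by
      rw [GaloisField.card 2 10 (by norm_num)]
      simp only [map_sub, map_pow, aeval_X, map_one] at hx
      grind
  simp only [map_sub, map_pow, aeval_X, map_one] at hx
  exact ⟨x, by grind⟩

theorem ord3 {K : Type} [Field K] [CharP K 3] {θ : K} (h : θ ^ 6 = θ + 1) : orderOf θ = 728 := by
  refine orderOf_eq_of_pow_and_pow_div_prime (by norm_num) (by grind) fun p hp hd => ?_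
  have : p ∈ Nat.primeFactors 728 := Nat.mem_primeFactors.2 ⟨hp, hd, by norm_num⟩
  rw [show Nat.primeFactors 728 = {2, 7, 13} by decide +kernel] at this
  simp only [Finset.mem_insert, Finset.mem_singleton] at this
  rcases this with rfl | rfl | rfl <;> grind

theorem ord2 {K : Type} [Field K] [CharP K 2] {θ : K} (h : θ ^ 10 = θ ^ 3 + 1) :
    orderOf θ = 1023 := by
  refine orderOf_eq_of_pow_and_pow_div_prime (by norm_num) (by grind) fun p hp hd => ?_
  have : p ∈ Nat.primeFactors 1023 := Nat.mem_primeFactors.2 ⟨hp, hd, by norm_num⟩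
  rw [show Nat.primeFactors 1023 = {3, 11, 31} by decide +kernel] at this
  simp only [Finset.mem_insert, Finset.mem_singleton] at this
  rcases this with rfl | rfl | rfl <;> grind

def P {K : Type} [Field K] (x : K) : K := ((x ^ 3 - x) ^ 2) ^ 3 + 2 * ((x ^ 3 - x) ^ 2) ^ 2 + 1

theorem P_frob {K : Type} [Field K] [CharP K 3] (x : K) (i : ℕ) : P (x ^ 3 ^ i) = 0 ↔ P x = 0 := by
  rw [← map_eq_zero (iterateFrobenius K 3 i) (a := P x), ← iterateFrobenius_def]
  simp only [P, map_add, map_pow, map_sub, map_mul, map_ofNat, map_one]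

def J {K : Type} [Field K] (x : K) : K := (x ^ 2 + x + 1) ^ 3 / (x ^ 2 + x) ^ 2

def R {K : Type} [Field K] (x : K) : K := J x ^ 5 + J x ^ 3 + 1

theorem R_frob {K : Type} [Field K] [CharP K 2] (x : K) (i : ℕ) : R (x ^ 2 ^ i) = 0 ↔ R x = 0 := by
  rw [← map_eq_zero (iterateFrobenius K 2 i) (a := R x), ← iterateFrobenius_def]
  simp only [R, J, map_add, map_pow, map_div₀, map_one]

theorem J_mob {K : Type} [Field K] [CharP K 2] (x y r t w c : K) (x0 : x ≠ 0) (x1 : x + 1 ≠ 0)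
    (y0 : y ≠ 0) (y1 : y + 1 ≠ 0) (hr : r = 0 ∨ r = 1) (ht : t = 0 ∨ t = 1) (hw : w = 0 ∨ w = 1)
    (hc : c = 0 ∨ c = 1) (h0 : ¬ (r = 0 ∧ t = 0)) (h : r * x + t * (y * x) + w * y = c) :
    J x = J y := by
  have a : x ^ 2 + x ≠ 0 := by grind
  have b : y ^ 2 + y ≠ 0 := by grind
  rw [J, J, div_eq_div_iff (pow_ne_zero _ a) (pow_ne_zero _ b)]
  rcases hr with rfl | rfl <;> rcases ht with rfl | rfl <;> rcases hw with rfl | rfl <;>
    rcases hc with rfl | rfl <;> grind

end Pool.Agent.H.MP_50e481_nt.A
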